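import Pool.Agent.H9.TwoPoint.Ideal

/-!
# The ideals of the family are admissible
-/

namespace Pool.Agent.H9.TwoPoint

open MvPolynomial Pool.Agent.H9.FatPoint

variable {R : Type} [CommRing R]

theorem idl_hom (e : R) (he : e * e = e) (p : MvPolynomial (Fin 3) R) (hp : p ∈ idl e he)
    (d : ℤ × ℤ) : weightedHomogeneousComponent degT d p ∈ idl e he := by
  rw [mem_idl] at hp ⊢
  intro s
  rw [G_component]
  split_ifs
  · exact hp s
  · rfl

theorem G_of_ne (e : R) (s : Fin 18) (d : ℤ × ℤ) (hd : wtsT s ≠ d) (p : MvPolynomial (Fin 3) R)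
    (hp : p ∈ weightedHomogeneousSubmodule R degT d) : G e s p = 0 := by
  classical
  rw [mem_weightedHomogeneousSubmodule] at hp
  have h1 : weightedHomogeneousComponent degT d p = p := by
    ext m
    rw [coeff_weightedHomogeneousComponent]
    split_ifs with h
    · rfl
    · exact (hp.coeff_eq_zero m h).symm
  rw [← h1, G_component, if_neg hd]

theorem idl_admissible (e : R) (he : e * e = e) : IsAdmissible degT hilbT (idl e he) := by
  classical
  refine ⟨idl_hom e he, fun d => ?_⟩
  set S := weightedHomogeneousSubmodule R degT d with hS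
  let g : S →ₗ[R] ({s : Fin 18 // wtsT s = d} → R) :=
    LinearMap.pi fun s => (G e s.1).comp S.subtype
  have hker : LinearMap.ker g = ((idl e he).restrictScalars R).comap S.subtype := by
    ext p
    rw [LinearMap.mem_ker, Submodule.mem_comap, Submodule.restrictScalars_mem, mem_idl]
    constructor
    · intro h s
      by_cases hs : wtsT s = d
      · exact congrFun h ⟨s, hs⟩
      · exact G_of_ne e s d hs _ p.2
    · intro h
      funext s
      exact h s.1
  have hsurj : Function.Surjective g := by
    intro v
    refine ⟨⟨∑ s : {s : Fin 18 // wtsT s = d}, v s • std e s.1, ?_⟩, ?_⟩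
    · refine Submodule.sum_mem _ fun s _ => Submodule.smul_mem _ _ ?_
      have := std_hom e s.1
      rw [s.2] at this
      exact this
    · funext t
      change G e t.1 (∑ s : {s : Fin 18 // wtsT s = d}, v s • std e s.1) = v t
      rw [map_sum, Finset.sum_eq_single t]
      · rw [map_smul, G_std e he, if_pos rfl, smul_eq_mul, mul_one]
      · intro s _ hs
        rw [map_smul, G_std e he, if_neg, smul_zero]
        intro h
        exact hs (Subtype.ext h.symm)
      · simp
  have f : (S ⧸ LinearMap.ker g) ≃ₗ[R] ({s : Fin 18 // wtsT s = d} → R) :=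
    g.quotKerEquivOfSurjective hsurj
  rw [← hker]
  exact locFree_pi f

theorem G_map {R' : Type} [CommRing R'] (φ : R →+* R') (e : R) (p : MvPolynomial (Fin 3) R)
    (s : Fin 18) : G (φ e) s (MvPolynomial.map φ p) = φ (G e s p) := by
  have hq : ∀ i j l : ℕ, q i j l (MvPolynomial.map φ p) = φ (q i j l p) := by
    intro i j l
    rw [q_apply, q_apply, coeff_map]
  fin_cases s <;> simp [G, hq]

theorem std_map {R' : Type} [CommRing R'] (φ : R →+* R') (e : R) (s : Fin 18) :
    MvPolynomial.map φ (std e s) = std (φ e) s := by
  fin_cases s <;> simp [std]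

theorem sub_mem_idl (e : R) (he : e * e = e) (p : MvPolynomial (Fin 3) R) :
    p - ∑ s, G e s p • std e s ∈ idl e he := by
  classical
  rw [mem_idl]
  intro t
  rw [map_sub, map_sum, Finset.sum_eq_single t]
  · rw [map_smul, G_std e he, if_pos rfl, smul_eq_mul, mul_one, sub_self]
  · intro s _ hs
    rw [map_smul, G_std e he, if_neg hs.symm, smul_zero]
  · simp

theorem idl_map {R' : Type} [CommRing R'] (φ : R →+* R') (e : R) (he : e * e = e)
    (he' : φ e * φ e = φ e) :
    idl (φ e) he' = (idl e he).map (MvPolynomial.map φ) := by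
  apply le_antisymm
  · intro p hp
    rw [mem_idl] at hp
    have h1 : p = ∑ m ∈ p.support, C (coeff m p) *
        MvPolynomial.map φ (monomial m 1 - ∑ s, G e s (monomial m 1) • std e s) := by
      have h2 : ∀ m : Fin 3 →₀ ℕ, MvPolynomial.map φ
          (monomial m 1 - ∑ s, G e s (monomial m 1) • std e s)
          = monomial m 1 - ∑ s, G (φ e) s (monomial m 1) • std (φ e) s := by
        intro m
        rw [map_sub, map_monomial, map_one, map_sum]
        congr 1
        refine Finset.sum_congr rfl fun s _ => ?_
        have h3 := G_map φ e (monomial m 1) s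
        rw [map_monomial, map_one] at h3
        rw [h3, smul_eq_C_mul, smul_eq_C_mul, map_mul, map_C, std_map]
      simp only [h2]
      have h4 : ∀ m : Fin 3 →₀ ℕ, C (coeff m p) * (monomial m 1
          - ∑ s, G (φ e) s (monomial m 1) • std (φ e) s)
          = monomial m (coeff m p)
            - ∑ s, G (φ e) s (monomial m (coeff m p)) • std (φ e) s := by
        intro m
        rw [mul_sub, C_mul_monomial, mul_one, Finset.mul_sum]
        congr 1
        refine Finset.sum_congr rfl fun s _ => ?_
        have h5 : (monomial m (coeff m p) : MvPolynomial (Fin 3) R')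
            = coeff m p • monomial m 1 := by
          rw [smul_monomial, smul_eq_mul, mul_one]
        rw [h5, map_smul, smul_eq_mul, mul_smul]
        simp only [smul_eq_C_mul]
      simp only [h4]
      rw [Finset.sum_sub_distrib, ← p.as_sum, Finset.sum_comm]
      have h6 : ∀ s, ∑ m ∈ p.support, G (φ e) s (monomial m (coeff m p)) • std (φ e) s
          = 0 := by
        intro s
        rw [← Finset.sum_smul, ← map_sum, ← p.as_sum, hp s, zero_smul]
      simp only [h6, Finset.sum_const_zero, sub_zero]
    rw [h1]
    exact Ideal.sum_mem _ fun m _ => Ideal.mul_mem_left _ _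
      (Ideal.mem_map_of_mem _ (sub_mem_idl e he _))
  · rw [Ideal.map_le_iff_le_comap]
    intro p hp
    rw [Ideal.mem_comap, mem_idl]
    intro s
    rw [mem_idl] at hp
    rw [G_map, hp s, map_zero]

end Pool.Agent.H9.TwoPoint
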