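import Pool.Agent.H9.TwoPoint.Adm

/-!
# Every admissible ideal belongs to the family
-/

namespace Pool.Agent.H9.TwoPoint

open MvPolynomial Pool.Agent.H9.FatPoint

variable {R : Type} [CommRing R]

theorem mono_hom (i j l : ℕ) (r : R) (a b : ℤ) (h1 : (i : ℤ) - j = a) (h2 : 2 * (j : ℤ) + l = b) :
    monomial (E i j l) r ∈ weightedHomogeneousSubmodule R degT (a, b) := by
  rw [mem_weightedHomogeneousSubmodule]
  apply isWeightedHomogeneous_monomial
  rw [weight_ET, h1, h2]

theorem expandT (a b : ℤ) (L : Finset (ℕ × ℕ × ℕ))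
    (hL : ∀ i j l : ℕ, (i : ℤ) - j = a → 2 * (j : ℤ) + l = b → (i, j, l) ∈ L)
    (p : MvPolynomial (Fin 3) R) (hp : p ∈ weightedHomogeneousSubmodule R degT (a, b)) :
    p = ∑ t ∈ L, monomial (E t.1 t.2.1 t.2.2) (q t.1 t.2.1 t.2.2 p) := by
  classical
  rw [mem_weightedHomogeneousSubmodule] at hp
  have h1 : p = ∑ m ∈ p.support, monomial m (coeff m p) := p.as_sum
  have h2 : ∑ t ∈ L, monomial (E t.1 t.2.1 t.2.2) (q t.1 t.2.1 t.2.2 p) =
      ∑ m ∈ L.image (fun t => E t.1 t.2.1 t.2.2), monomial m (coeff m p) := by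
    rw [Finset.sum_image]
    · rfl
    · rintro ⟨i, j, l⟩ _ ⟨i', j', l'⟩ _ h
      obtain ⟨rfl, rfl, rfl⟩ := E_inj.1 h
      rfl
  rw [h2]
  conv_lhs => rw [h1]
  refine Finset.sum_subset (fun m hm => ?_) (fun m _ hm => ?_)
  · have hw : Finsupp.weight degT m = (a, b) := by
      by_contra h
      exact (mem_support_iff.1 hm) (hp.coeff_eq_zero m h)
    rw [E_eta m, weight_ET, Prod.mk.injEq] at hw
    exact Finset.mem_image.2 ⟨(m 0, m 1, m 2), hL _ _ _ hw.1 hw.2, (E_eta m).symm⟩
  · rw [notMem_support_iff.1 hm, map_zero]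

theorem mem_of_hilb_eq_zero {I : Ideal (MvPolynomial (Fin 3) R)} (h : IsAdmissible degT hilbT I)
    (d : ℤ × ℤ) (hd : hilbT d = 0) (p : MvPolynomial (Fin 3) R)
    (hp : p ∈ weightedHomogeneousSubmodule R degT d) : p ∈ I := by
  obtain ⟨h1, h2, h3⟩ := h.2 d
  rw [hd] at h3
  have h4 : Module.rankAtStalk (R := R) (↥(weightedHomogeneousSubmodule R degT d) ⧸
      (I.restrictScalars R).comap (weightedHomogeneousSubmodule R degT d).subtype) = 0 := by
    funext p
    rw [h3]
    rfl
  rw [Module.rankAtStalk_eq_zero_iff_subsingleton] at h4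
  have h5 := h4.elim (Submodule.Quotient.mk ⟨p, hp⟩) 0
  rw [Submodule.Quotient.mk_eq_zero] at h5
  exact h5

theorem locFree_comapT {I : Ideal (MvPolynomial (Fin 3) R)} (h : IsAdmissible degT hilbT I)
    (d : ℤ × ℤ) {V : Type} [AddCommGroup V] [Module R V] (ψ : V →ₗ[R] MvPolynomial (Fin 3) R)
    (hψ : ∀ v, ψ v ∈ weightedHomogeneousSubmodule R degT d)
    (hs : ∀ p ∈ weightedHomogeneousSubmodule R degT d, ∃ v, ψ v - p ∈ I) :
    LocFree R (V ⧸ (I.restrictScalars R).comap ψ) (hilbT d) := by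
  let ψ' : V →ₗ[R] weightedHomogeneousSubmodule R degT d := ψ.codRestrict _ hψ
  let N : Submodule R (weightedHomogeneousSubmodule R degT d) :=
    (I.restrictScalars R).comap (weightedHomogeneousSubmodule R degT d).subtype
  let g : V →ₗ[R] (weightedHomogeneousSubmodule R degT d ⧸ N) := N.mkQ.comp ψ'
  have hker : LinearMap.ker g = (I.restrictScalars R).comap ψ := by
    ext v
    rw [LinearMap.mem_ker]
    change N.mkQ (ψ' v) = 0 ↔ _
    rw [Submodule.mkQ_apply, Submodule.Quotient.mk_eq_zero]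
    rfl
  have hsurj : Function.Surjective g := by
    intro y
    obtain ⟨p, rfl⟩ := N.mkQ_surjective y
    obtain ⟨v, hv⟩ := hs p.1 p.2
    refine ⟨v, ?_⟩
    change N.mkQ (ψ' v) = N.mkQ p
    rw [← sub_eq_zero, ← map_sub, Submodule.mkQ_apply, Submodule.Quotient.mk_eq_zero]
    exact hv
  rw [← hker]
  exact LocFree.of_equiv (h.2 d) (g.quotKerEquivOfSurjective hsurj).symm

/-- A cyclic module of rank one is free. -/
theorem eq_bot_of_rank_one (L : Submodule R R) (hL : LocFree R (R ⧸ L) 1) : L = ⊥ := by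
  have h0 : LocFree R (R ⧸ (⊥ : Submodule R R)) 1 := by
    have h1 : LocFree R (Unit → R) (Fintype.card Unit) := locFree_pi (LinearEquiv.refl R _)
    rw [Fintype.card_unit] at h1
    exact h1.of_equiv ((LinearEquiv.funUnique Unit R R).trans
      (Submodule.quotEquivOfEqBot _ rfl).symm)
  exact (LocFree.eq_of_le h0 hL bot_le).symm

theorem locFree_ker_snd : LocFree R ((R × R) ⧸ LinearMap.ker (LinearMap.snd R R R)) 1 := by
  have h0 : LocFree R (Unit → R) (Fintype.card Unit) := locFree_pi (LinearEquiv.refl R _)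
  rw [Fintype.card_unit] at h0
  exact h0.of_equiv ((LinearEquiv.funUnique Unit R R).trans
    ((LinearMap.snd R R R).quotKerEquivOfSurjective (fun y => ⟨(0, y), rfl⟩)).symm)

section

variable {I : Ideal (MvPolynomial (Fin 3) R)} (h : IsAdmissible degT hilbT I)

include h

theorem y2z_mem (r : R) : monomial (E 0 2 1) r ∈ I :=
  mem_of_hilb_eq_zero h (-2, 5) (by decide) _ (mono_hom 0 2 1 r _ _ (by norm_num) (by norm_num))

theorem y2z2_mem (r : R) : monomial (E 0 2 2) r ∈ I := by
  rw [← mul_X2]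
  exact I.mul_mem_right _ (y2z_mem h r)

theorem fib26 (p : MvPolynomial (Fin 3) R)
    (hp : p ∈ weightedHomogeneousSubmodule R degT (-2, 6)) :
    p = monomial (E 0 2 2) (q 0 2 2 p) + monomial (E 1 3 0) (q 1 3 0 p) := by
  have := expandT (-2) 6 {(0, 2, 2), (1, 3, 0)} (fun i j l h1 h2 => by
    have hj : j = 2 ∨ j = 3 := by omega
    rcases hj with rfl | rfl
    · have h3 : i = 0 := by omega
      have h4 : l = 2 := by omega
      subst h3 h4; simp
    · have h3 : i = 1 := by omega
      have h4 : l = 0 := by omega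
      subst h3 h4; simp) p hp
  rwa [Finset.sum_pair (by simp)] at this

theorem xy3_inj (r : R) (hr : monomial (E 1 3 0) r ∈ I) : r = 0 := by
  have h1 := locFree_comapT h (-2, 6) (monomial (E 1 3 0))
    (fun v => mono_hom 1 3 0 v _ _ (by norm_num) (by norm_num)) (fun p hp => by
      refine ⟨q 1 3 0 p, ?_⟩
      have h2 := fib26 h p hp
      have h3 : monomial (E 1 3 0) (q 1 3 0 p) - p = -monomial (E 0 2 2) (q 0 2 2 p) := by
        linear_combination -h2
      rw [h3]
      exact I.neg_mem (y2z2_mem h _))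
  have hv : hilbT (-2, 6) = 1 := by decide
  rw [hv] at h1
  have h2 := eq_bot_of_rank_one _ h1
  have h3 : r ∈ (I.restrictScalars R).comap (monomial (E 1 3 0)) := hr
  rw [h2] at h3
  exact h3

theorem fib14 (p : MvPolynomial (Fin 3) R)
    (hp : p ∈ weightedHomogeneousSubmodule R degT (-1, 4)) :
    p = monomial (E 0 1 2) (q 0 1 2 p) + monomial (E 1 2 0) (q 1 2 0 p) := by
  have := expandT (-1) 4 {(0, 1, 2), (1, 2, 0)} (fun i j l h1 h2 => by
    have hj : j = 1 ∨ j = 2 := by omega
    rcases hj with rfl | rfl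
    · have h3 : i = 0 := by omega
      have h4 : l = 2 := by omega
      subst h3 h4; simp
    · have h3 : i = 1 := by omega
      have h4 : l = 0 := by omega
      subst h3 h4; simp) p hp
  rwa [Finset.sum_pair (by simp)] at this

theorem yz2_mem (r : R) : monomial (E 0 1 2) r ∈ I := by
  have h1 := locFree_comapT h (-1, 4) (two (E 0 1 2) (E 1 2 0))
    (fun v => Submodule.add_mem _ (mono_hom 0 1 2 v.1 _ _ (by norm_num) (by norm_num))
      (mono_hom 1 2 0 v.2 _ _ (by norm_num) (by norm_num))) (fun p hp => by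
      refine ⟨(q 0 1 2 p, q 1 2 0 p), ?_⟩
      rw [two_apply]
      have h2 := fib14 h p hp
      rw [sub_eq_zero.2 h2.symm]
      exact I.zero_mem)
  have hv : hilbT (-1, 4) = 1 := by decide
  rw [hv] at h1
  have hle : (I.restrictScalars R).comap (two (E 0 1 2) (E 1 2 0)) ≤
      LinearMap.ker (LinearMap.snd R R R) := by
    intro v hv
    rw [Submodule.mem_comap, Submodule.restrictScalars_mem, two_apply] at hv
    have h2 := I.mul_mem_right (X 1) hv
    rw [add_mul, mul_X1, mul_X1] at h2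
    have h3 := I.sub_mem h2 (y2z2_mem h v.1)
    rw [add_sub_cancel_left] at h3
    exact xy3_inj h _ h3
  have heq := LocFree.eq_of_le h1 locFree_ker_snd hle
  have h4 : ((r, 0) : R × R) ∈ LinearMap.ker (LinearMap.snd R R R) := rfl
  rw [← heq, Submodule.mem_comap, Submodule.restrictScalars_mem, two_apply] at h4
  simpa using h4

theorem xyz2_mem (r : R) : monomial (E 1 1 2) r ∈ I := by
  have := I.mul_mem_right (X 0) (yz2_mem h r)
  rwa [mul_X0] at this

end

end Pool.Agent.H9.TwoPoint
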