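import Pool.Agent.H9.FatPoint.Defs

/-!
# A grading of `k[x, y, z]` and a Hilbert function
-/

namespace Pool.Agent.H9.TwoPoint

/-- The grading of `k[x, y, z]` by `ℤ²` with `deg x = (1, 0)`, `deg y = (-1, 2)`,
`deg z = (0, 1)`. -/
def degT : Fin 3 → ℤ × ℤ := ![(1, 0), (-1, 2), (0, 1)]

/-- Eighteen degrees, one of them, `(0, 2)`, with multiplicity two. -/
def wtsT : Fin 18 → ℤ × ℤ :=
  ![(0, 0), (-1, 2), (1, 0), (0, 1), (1, 1), (0, 2), (0, 2), (-2, 4), (2, 0), (-1, 3), (-1, 4),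
    (-3, 6), (2, 1), (-2, 6), (0, 3), (1, 2), (0, 4), (1, 3)]

/-- The Hilbert function: the value at `d` is the number of times that `d` occurs in `wtsT`. -/
def hilbT (d : ℤ × ℤ) : ℕ := Fintype.card {s : Fin 18 // wtsT s = d}

end Pool.Agent.H9.TwoPoint
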