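import Pool.Agent.H9.TwoPoint.Converse

/-!
# The idempotent of an admissible ideal
-/

namespace Pool.Agent.H9.TwoPoint

open MvPolynomial Pool.Agent.H9.FatPoint

variable {R : Type} [CommRing R]

section

variable {I : Ideal (MvPolynomial (Fin 3) R)} (h : IsAdmissible degT hilbT I)

theorem fib03 (p : MvPolynomial (Fin 3) R)
    (hp : p ∈ weightedHomogeneousSubmodule R degT (0, 3)) :
    p = monomial (E 0 0 3) (q 0 0 3 p) + monomial (E 1 1 1) (q 1 1 1 p) := by
  have := expandT 0 3 {(0, 0, 3), (1, 1, 1)} (fun i j l h1 h2 => by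
    have hj : j = 0 ∨ j = 1 := by omega
    rcases hj with rfl | rfl
    · have h3 : i = 0 := by omega
      have h4 : l = 3 := by omega
      subst h3 h4; simp
    · have h3 : i = 1 := by omega
      have h4 : l = 1 := by omega
      subst h3 h4; simp) p hp
  rwa [Finset.sum_pair (by simp)] at this

theorem fib12 (p : MvPolynomial (Fin 3) R)
    (hp : p ∈ weightedHomogeneousSubmodule R degT (1, 2)) :
    p = monomial (E 1 0 2) (q 1 0 2 p) + monomial (E 2 1 0) (q 2 1 0 p) := by
  have := expandT 1 2 {(1, 0, 2), (2, 1, 0)} (fun i j l h1 h2 => by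
    have hj : j = 0 ∨ j = 1 := by omega
    rcases hj with rfl | rfl
    · have h3 : i = 1 := by omega
      have h4 : l = 2 := by omega
      subst h3 h4; simp
    · have h3 : i = 2 := by omega
      have h4 : l = 0 := by omega
      subst h3 h4; simp) p hp
  rwa [Finset.sum_pair (by simp)] at this

theorem fib13 (p : MvPolynomial (Fin 3) R)
    (hp : p ∈ weightedHomogeneousSubmodule R degT (1, 3)) :
    p = monomial (E 1 0 3) (q 1 0 3 p) + monomial (E 2 1 1) (q 2 1 1 p) := by
  have := expandT 1 3 {(1, 0, 3), (2, 1, 1)} (fun i j l h1 h2 => by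
    have hj : j = 0 ∨ j = 1 := by omega
    rcases hj with rfl | rfl
    · have h3 : i = 1 := by omega
      have h4 : l = 3 := by omega
      subst h3 h4; simp
    · have h3 : i = 2 := by omega
      have h4 : l = 1 := by omega
      subst h3 h4; simp) p hp
  rwa [Finset.sum_pair (by simp)] at this

theorem fib04 (p : MvPolynomial (Fin 3) R)
    (hp : p ∈ weightedHomogeneousSubmodule R degT (0, 4)) :
    p = monomial (E 0 0 4) (q 0 0 4 p) + (monomial (E 1 1 2) (q 1 1 2 p) +
      monomial (E 2 2 0) (q 2 2 0 p)) := by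
  have := expandT 0 4 {(0, 0, 4), (1, 1, 2), (2, 2, 0)} (fun i j l h1 h2 => by
    have hj : j = 0 ∨ j = 1 ∨ j = 2 := by omega
    rcases hj with rfl | rfl | rfl
    · have h3 : i = 0 := by omega
      have h4 : l = 4 := by omega
      subst h3 h4; simp
    · have h3 : i = 1 := by omega
      have h4 : l = 2 := by omega
      subst h3 h4; simp
    · have h3 : i = 2 := by omega
      have h4 : l = 0 := by omega
      subst h3 h4; simp) p hp
  rwa [Finset.sum_insert (by simp), Finset.sum_pair (by simp)] at this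

include h

theorem L03 : LocFree R ((R × R) ⧸ (I.restrictScalars R).comap (two (E 0 0 3) (E 1 1 1))) 1 := by
  have h1 := locFree_comapT h (0, 3) (two (E 0 0 3) (E 1 1 1))
    (fun v => Submodule.add_mem _ (mono_hom 0 0 3 v.1 _ _ (by norm_num) (by norm_num))
      (mono_hom 1 1 1 v.2 _ _ (by norm_num) (by norm_num))) (fun p hp => by
      refine ⟨(q 0 0 3 p, q 1 1 1 p), ?_⟩
      rw [two_apply, sub_eq_zero.2 (fib03 p hp).symm]
      exact I.zero_mem)
  have hv : hilbT (0, 3) = 1 := by decide
  rwa [hv] at h1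

theorem L12 : LocFree R ((R × R) ⧸ (I.restrictScalars R).comap (two (E 1 0 2) (E 2 1 0))) 1 := by
  have h1 := locFree_comapT h (1, 2) (two (E 1 0 2) (E 2 1 0))
    (fun v => Submodule.add_mem _ (mono_hom 1 0 2 v.1 _ _ (by norm_num) (by norm_num))
      (mono_hom 2 1 0 v.2 _ _ (by norm_num) (by norm_num))) (fun p hp => by
      refine ⟨(q 1 0 2 p, q 2 1 0 p), ?_⟩
      rw [two_apply, sub_eq_zero.2 (fib12 p hp).symm]
      exact I.zero_mem)
  have hv : hilbT (1, 2) = 1 := by decide
  rwa [hv] at h1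

theorem L13 : LocFree R ((R × R) ⧸ (I.restrictScalars R).comap (two (E 1 0 3) (E 2 1 1))) 1 := by
  have h1 := locFree_comapT h (1, 3) (two (E 1 0 3) (E 2 1 1))
    (fun v => Submodule.add_mem _ (mono_hom 1 0 3 v.1 _ _ (by norm_num) (by norm_num))
      (mono_hom 2 1 1 v.2 _ _ (by norm_num) (by norm_num))) (fun p hp => by
      refine ⟨(q 1 0 3 p, q 2 1 1 p), ?_⟩
      rw [two_apply, sub_eq_zero.2 (fib13 p hp).symm]
      exact I.zero_mem)
  have hv : hilbT (1, 3) = 1 := by decide
  rwa [hv] at h1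

theorem L_eq : (I.restrictScalars R).comap (two (E 0 0 3) (E 1 1 1))
    = (I.restrictScalars R).comap (two (E 1 0 2) (E 2 1 0)) := by
  have hle1 : (I.restrictScalars R).comap (two (E 0 0 3) (E 1 1 1))
      ≤ (I.restrictScalars R).comap (two (E 1 0 3) (E 2 1 1)) := by
    intro v hv
    rw [Submodule.mem_comap, Submodule.restrictScalars_mem, two_apply] at hv ⊢
    have := I.mul_mem_right (X 0) hv
    rwa [add_mul, mul_X0, mul_X0] at this
  have hle2 : (I.restrictScalars R).comap (two (E 1 0 2) (E 2 1 0))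
      ≤ (I.restrictScalars R).comap (two (E 1 0 3) (E 2 1 1)) := by
    intro v hv
    rw [Submodule.mem_comap, Submodule.restrictScalars_mem, two_apply] at hv ⊢
    have := I.mul_mem_right (X 2) hv
    rwa [add_mul, mul_X2, mul_X2] at this
  exact (LocFree.eq_of_le (L03 h) (L13 h) hle1).trans
    (LocFree.eq_of_le (L12 h) (L13 h) hle2).symm

theorem z4_mem (v : R × R) (hv : v ∈ (I.restrictScalars R).comap (two (E 0 0 3) (E 1 1 1))) :
    monomial (E 0 0 4) v.1 ∈ I := by
  rw [Submodule.mem_comap, Submodule.restrictScalars_mem, two_apply] at hv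
  have h1 := I.mul_mem_right (X 2) hv
  rw [add_mul, mul_X2, mul_X2] at h1
  have h2 := I.sub_mem h1 (xyz2_mem h v.2)
  rwa [add_sub_cancel_right] at h2

theorem x2y2_mem (v : R × R) (hv : v ∈ (I.restrictScalars R).comap (two (E 0 0 3) (E 1 1 1))) :
    monomial (E 2 2 0) v.2 ∈ I := by
  rw [L_eq h, Submodule.mem_comap, Submodule.restrictScalars_mem, two_apply] at hv
  have h1 := I.mul_mem_right (X 1) hv
  rw [add_mul, mul_X1, mul_X1] at h1
  have h2 := I.sub_mem h1 (xyz2_mem h v.1)
  rwa [add_sub_cancel_left] at h2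

theorem exists_idem : ∃ e : R, e * e = e ∧
    ((e, 0) : R × R) ∈ (I.restrictScalars R).comap (two (E 0 0 3) (E 1 1 1)) ∧
    ((0, 1 - e) : R × R) ∈ (I.restrictScalars R).comap (two (E 0 0 3) (E 1 1 1)) := by
  set L := (I.restrictScalars R).comap (two (E 0 0 3) (E 1 1 1)) with hL
  have htop : (Submodule.map (LinearMap.fst R R R) L ⊔ Submodule.map (LinearMap.snd R R R) L :
      Ideal R) = ⊤ := by
    apply eq_top_of_rank_one L (L03 h)
    intro v hv
    exact ⟨Submodule.mem_sup_left ⟨v, hv, rfl⟩, Submodule.mem_sup_right ⟨v, hv, rfl⟩⟩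
  have h1 : (1 : R) ∈ (Submodule.map (LinearMap.fst R R R) L ⊔
      Submodule.map (LinearMap.snd R R R) L : Ideal R) := by
    rw [htop]
    exact Submodule.mem_top
  obtain ⟨a, ⟨v, hv, hva⟩, b, ⟨w, hw, hwb⟩, hab⟩ := Submodule.mem_sup.1 h1
  have hva' : v.1 = a := hva
  have hwb' : w.2 = b := hwb
  have haI : ∀ r, monomial (E 0 0 4) (r * a) ∈ I := by
    intro r
    have := z4_mem h (r • v) (L.smul_mem r hv)
    rwa [Prod.smul_fst, smul_eq_mul, hva'] at this
  have hbI : ∀ r, monomial (E 2 2 0) (r * b) ∈ I := by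
    intro r
    have := x2y2_mem h (r • w) (L.smul_mem r hw)
    rwa [Prod.smul_snd, smul_eq_mul, hwb'] at this
  -- the cyclic generator in degree `(0, 4)`
  let ψ : R →ₗ[R] MvPolynomial (Fin 3) R := monomial (E 0 0 4) + monomial (E 2 2 0)
  have hψ : ∀ r, ψ r = monomial (E 0 0 4) r + monomial (E 2 2 0) r := fun r => rfl
  have h2 := locFree_comapT h (0, 4) ψ
    (fun r => Submodule.add_mem _ (mono_hom 0 0 4 r _ _ (by norm_num) (by norm_num))
      (mono_hom 2 2 0 r _ _ (by norm_num) (by norm_num))) (fun p hp => by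
      refine ⟨q 0 0 4 p * b + q 2 2 0 p * a, ?_⟩
      have h3 := fib04 p hp
      have hb' : b = 1 - a := by rw [← hab]; ring
      have e1 : ψ (q 0 0 4 p * b + q 2 2 0 p * a) - p =
          monomial (E 0 0 4) ((q 2 2 0 p - q 0 0 4 p) * a) +
          monomial (E 2 2 0) ((q 0 0 4 p - q 2 2 0 p) * b) - monomial (E 1 1 2) (q 1 1 2 p) := by
        have e2 : q 0 0 4 p * b + q 2 2 0 p * a = (q 2 2 0 p - q 0 0 4 p) * a + q 0 0 4 p := by
          rw [hb']; ring
        have e3 : q 0 0 4 p * b + q 2 2 0 p * a = (q 0 0 4 p - q 2 2 0 p) * b + q 2 2 0 p := by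
          rw [hb']; ring
        rw [hψ]
        nth_rewrite 1 [e2]
        rw [e3, map_add, map_add]
        linear_combination -h3
      rw [e1]
      exact I.sub_mem (I.add_mem (haI _) (hbI _)) (xyz2_mem h _))
  have hv4 : hilbT (0, 4) = 1 := by decide
  rw [hv4] at h2
  have h3 := eq_bot_of_rank_one _ h2
  have hz : ∀ r, ψ r ∈ I → r = 0 := by
    intro r hr
    have h4 : r ∈ (I.restrictScalars R).comap ψ := hr
    rw [h3] at h4
    exact h4
  have hzero : ∀ u ∈ L, ∀ u' ∈ L, u.1 * u'.2 = 0 := by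
    intro u hu u' hu'
    apply hz
    rw [hψ]
    refine I.add_mem ?_ ?_
    · have := z4_mem h (u'.2 • u) (L.smul_mem _ hu)
      rwa [Prod.smul_fst, smul_eq_mul, mul_comm] at this
    · have := x2y2_mem h (u.1 • u') (L.smul_mem _ hu')
      rwa [Prod.smul_snd, smul_eq_mul] at this
  have habz : a * b = 0 := by
    rw [← hva', ← hwb']
    exact hzero v hv w hw
  have haa : a * a = a := by
    have : a * (a + b) = a := by rw [hab, mul_one]
    rwa [mul_add, habz, add_zero] at this
  have hbb : b * b = b := by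
    have : (a + b) * b = b := by rw [hab, one_mul]
    rwa [add_mul, habz, zero_add] at this
  refine ⟨a, haa, ?_, ?_⟩
  · have h5 : ((a, 0) : R × R) = a • v := by
      refine Prod.ext ?_ ?_
      · simp [hva', haa]
      · have := hzero v hv v hv
        rw [hva'] at this
        simp [this]
    rw [h5]
    exact L.smul_mem _ hv
  · have h6 : 1 - a = b := by rw [← hab]; ring
    have h5 : ((0, 1 - a) : R × R) = b • w := by
      rw [h6]
      refine Prod.ext ?_ ?_
      · have := hzero w hw w hw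
        rw [hwb', mul_comm] at this
        simp [this]
      · simp [hwb', hbb]
    rw [h5]
    exact L.smul_mem _ hw

end

end Pool.Agent.H9.TwoPoint
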