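import Pool.Agent.H9.TwoPoint.Defs
import Pool.Agent.H9.FatPoint.Converse

/-!
# The ideals, their graded pieces, and base change
-/

namespace Pool.Agent.H9.TwoPoint

open MvPolynomial Pool.Agent.H9.FatPoint

variable {R : Type} [CommRing R]

theorem weight_ET (i j l : ℕ) :
    Finsupp.weight degT (E i j l) = ((i : ℤ) - j, 2 * (j : ℤ) + l) := by
  simp [E, degT, map_add, Finsupp.weight_single]
  constructor <;> ring

/-- The coordinates of a polynomial modulo the ideal. -/
noncomputable def G (e : R) : Fin 18 → (MvPolynomial (Fin 3) R →ₗ[R] R) :=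
  ![q 0 0 0, q 0 1 0, q 1 0 0, q 0 0 1, q 1 0 1, q 0 0 2, q 1 1 0, q 0 2 0, q 2 0 0, q 0 1 1,
    q 1 2 0, q 0 3 0, q 2 0 1, q 1 3 0,
    (1 - e) • q 0 0 3 + e • q 1 1 1, (1 - e) • q 1 0 2 + e • q 2 1 0,
    (1 - e) • q 0 0 4 + e • q 2 2 0, (1 - e) • q 1 0 3 + e • q 2 1 1]

/-- The standard elements. -/
noncomputable def std (e : R) : Fin 18 → MvPolynomial (Fin 3) R :=
  ![monomial (E 0 0 0) 1, monomial (E 0 1 0) 1, monomial (E 1 0 0) 1, monomial (E 0 0 1) 1,
    monomial (E 1 0 1) 1, monomial (E 0 0 2) 1, monomial (E 1 1 0) 1, monomial (E 0 2 0) 1,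
    monomial (E 2 0 0) 1, monomial (E 0 1 1) 1, monomial (E 1 2 0) 1, monomial (E 0 3 0) 1,
    monomial (E 2 0 1) 1, monomial (E 1 3 0) 1,
    monomial (E 0 0 3) (1 - e) + monomial (E 1 1 1) e,
    monomial (E 1 0 2) (1 - e) + monomial (E 2 1 0) e,
    monomial (E 0 0 4) (1 - e) + monomial (E 2 2 0) e,
    monomial (E 1 0 3) (1 - e) + monomial (E 2 1 1) e]

theorem G_forall (e : R) (p : MvPolynomial (Fin 3) R) : (∀ s, G e s p = 0) ↔
    q 0 0 0 p = 0 ∧ q 0 1 0 p = 0 ∧ q 1 0 0 p = 0 ∧ q 0 0 1 p = 0 ∧ q 1 0 1 p = 0 ∧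
    q 0 0 2 p = 0 ∧ q 1 1 0 p = 0 ∧ q 0 2 0 p = 0 ∧ q 2 0 0 p = 0 ∧ q 0 1 1 p = 0 ∧
    q 1 2 0 p = 0 ∧ q 0 3 0 p = 0 ∧ q 2 0 1 p = 0 ∧ q 1 3 0 p = 0 ∧
    (1 - e) * q 0 0 3 p + e * q 1 1 1 p = 0 ∧ (1 - e) * q 1 0 2 p + e * q 2 1 0 p = 0 ∧
    (1 - e) * q 0 0 4 p + e * q 2 2 0 p = 0 ∧ (1 - e) * q 1 0 3 p + e * q 2 1 1 p = 0 := by
  simp only [Fin.forall_fin_succ, G]
  simp [Fin.succ]

theorem G_mul_X (e : R) (he : e * e = e) (p : MvPolynomial (Fin 3) R)
    (hp : ∀ s, G e s p = 0) (i : Fin 3) : ∀ s, G e s (p * X i) = 0 := by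
  rw [G_forall] at hp ⊢
  obtain ⟨h0, h1, h2, h3, h4, h5, h6, h7, h8, h9, h10, h11, h12, h13, h14, h15, h16, h17⟩ := hp
  have a14 : (1 - e) * q 0 0 3 p = 0 := by linear_combination (1 - e) * h14 + (q 1 1 1 p - q 0 0 3 p) * he
  have b15 : e * q 2 1 0 p = 0 := by
    linear_combination e * h15 + (q 1 0 2 p - q 2 1 0 p) * he
  fin_cases i
  · simp only [Fin.zero_eta, Fin.isValue, q_mul_X0]
    simp [h0, h1, h2, h3, h4, h5, h6, h7, h8, h9, h10, h11, h12, h13, h14]
  · simp only [Fin.mk_one, Fin.isValue, q_mul_X1]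
    simp [h0, h1, h2, h3, h4, h5, h6, h7, h8, h9, h10, h11, h12, h13, b15]
  · simp only [Fin.reduceFinMk, Fin.isValue, q_mul_X2]
    simp [h0, h1, h2, h3, h4, h5, h6, h7, h8, h9, h10, h11, h12, h13, a14, h15]

/-- The ideal attached to the idempotent `e`. -/
noncomputable def idl (e : R) (he : e * e = e) : Ideal (MvPolynomial (Fin 3) R) where
  carrier := {p | ∀ s, G e s p = 0}
  zero_mem' := fun s => map_zero _
  add_mem' := fun {a b} ha hb s => by rw [map_add, ha s, hb s, add_zero]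
  smul_mem' := by
    intro c p hp
    rw [smul_eq_mul]
    induction c using MvPolynomial.induction_on with
    | C a =>
      intro s
      rw [← smul_eq_C_mul, map_smul, hp s, smul_zero]
    | add a b ha hb =>
      intro s
      rw [add_mul, map_add, ha s, hb s, add_zero]
    | mul_X a i ha =>
      have h : a * X i * p = (a * p) * X i := by ring
      rw [h]
      exact G_mul_X e he _ ha i

theorem mem_idl (e : R) (he : e * e = e) (p : MvPolynomial (Fin 3) R) :
    p ∈ idl e he ↔ ∀ s, G e s p = 0 := Iff.rfl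

theorem q_mono (i j l i' j' l' : ℕ) (r : R) : q i j l (monomial (E i' j' l') r)
    = if (i' = i ∧ j' = j ∧ l' = l) then r else 0 := by
  classical
  rw [q_apply, coeff_monomial]
  simp only [E_inj]

set_option maxHeartbeats 4000000 in
theorem G_std (e : R) (he : e * e = e) (s t : Fin 18) :
    G e s (std e t) = if s = t then 1 else 0 := by
  fin_cases s <;> fin_cases t <;> simp [G, std, q_mono] <;> linear_combination 2 * he

theorem std_hom (e : R) (s : Fin 18) :
    std e s ∈ weightedHomogeneousSubmodule R degT (wtsT s) := by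
  have h : ∀ (i j l : ℕ) (r : R), monomial (E i j l) r ∈
      weightedHomogeneousSubmodule R degT ((i : ℤ) - j, 2 * (j : ℤ) + l) := by
    intro i j l r
    rw [mem_weightedHomogeneousSubmodule]
    apply isWeightedHomogeneous_monomial
    rw [weight_ET]
  have h' : ∀ (i j l : ℕ) (r : R) (d : ℤ × ℤ), d = ((i : ℤ) - j, 2 * (j : ℤ) + l) →
      monomial (E i j l) r ∈ weightedHomogeneousSubmodule R degT d := by
    rintro i j l r d rfl
    exact h i j l r
  fin_cases s
  all_goals first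
    | exact h' _ _ _ _ _ (by simp [wtsT])
    | exact Submodule.add_mem _ (h' _ _ _ _ _ (by simp [wtsT])) (h' _ _ _ _ _ (by simp [wtsT]))

set_option maxHeartbeats 4000000 in
theorem G_component (e : R) (s : Fin 18) (d : ℤ × ℤ) (p : MvPolynomial (Fin 3) R) :
    G e s (weightedHomogeneousComponent degT d p) = if wtsT s = d then G e s p else 0 := by
  classical
  have hq : ∀ i j l : ℕ, q i j l (weightedHomogeneousComponent degT d p)
      = if ((i : ℤ) - j, 2 * (j : ℤ) + l) = d then q i j l p else 0 := by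
    intro i j l
    rw [q_apply, coeff_weightedHomogeneousComponent, weight_ET]
    rfl
  fin_cases s <;> simp [G, hq, wtsT] <;> split_ifs <;> simp_all

end Pool.Agent.H9.TwoPoint
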