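import Pool.Agent.H9.TwoPoint.Family

/-!
# The multigraded Hilbert scheme is the disjoint union of two points
-/

namespace Pool.Agent.H9.TwoPoint

open MvPolynomial Pool.Agent.H9.FatPoint

variable {R : Type} [CommRing R]

section

variable {I : Ideal (MvPolynomial (Fin 3) R)} (h : IsAdmissible degT hilbT I)

include h

theorem mem_of_mem_idl {e : R} (he : e * e = e)
    (h1 : ((e, 0) : R × R) ∈ (I.restrictScalars R).comap (two (E 0 0 3) (E 1 1 1)))
    (h2 : ((0, 1 - e) : R × R) ∈ (I.restrictScalars R).comap (two (E 0 0 3) (E 1 1 1)))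
    (d : ℤ × ℤ) (p : MvPolynomial (Fin 3) R)
    (hp : p ∈ weightedHomogeneousSubmodule R degT d) (hpi : p ∈ idl e he) : p ∈ I := by
  by_cases h0 : hilbT d = 0
  · exact mem_of_hilb_eq_zero h _ h0 p hp
  have hs : ∃ s, wtsT s = d := by
    by_contra hc
    apply h0
    rw [hilbT, Fintype.card_eq_zero_iff]
    exact ⟨fun ⟨s, hs⟩ => hc ⟨s, hs⟩⟩
  rw [mem_idl, G_forall] at hpi
  obtain ⟨c0, c1, c2, c3, c4, c5, c6, c7, c8, c9, c10, c11, c12, c13, c14, c15, c16, c17⟩ := hpi
  -- the four split relations
  have split : ∀ a b : R, (1 - e) * a + e * b = 0 → a = a * e ∧ b = b * (1 - e) := by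
    intro a b hab
    constructor
    · linear_combination (1 - e) * hab + (b - a) * he
    · linear_combination e * hab + (a - b) * he
  have z3 : ∀ r, monomial (E 0 0 3) (r * e) ∈ I := by
    intro r
    have := ((I.restrictScalars R).comap (two (E 0 0 3) (E 1 1 1))).smul_mem r h1
    rw [Submodule.mem_comap, Submodule.restrictScalars_mem, two_apply] at this
    simpa using this
  have xyz : ∀ r, monomial (E 1 1 1) (r * (1 - e)) ∈ I := by
    intro r
    have := ((I.restrictScalars R).comap (two (E 0 0 3) (E 1 1 1))).smul_mem r h2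
    rw [Submodule.mem_comap, Submodule.restrictScalars_mem, two_apply] at this
    simpa using this
  rw [L_eq h] at h1 h2
  have xz2 : ∀ r, monomial (E 1 0 2) (r * e) ∈ I := by
    intro r
    have := ((I.restrictScalars R).comap (two (E 1 0 2) (E 2 1 0))).smul_mem r h1
    rw [Submodule.mem_comap, Submodule.restrictScalars_mem, two_apply] at this
    simpa using this
  have x2y : ∀ r, monomial (E 2 1 0) (r * (1 - e)) ∈ I := by
    intro r
    have := ((I.restrictScalars R).comap (two (E 1 0 2) (E 2 1 0))).smul_mem r h2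
    rw [Submodule.mem_comap, Submodule.restrictScalars_mem, two_apply] at this
    simpa using this
  -- degrees with a single monomial, whose coefficient vanishes
  have single : ∀ (i j l : ℕ), q i j l p = 0 →
      (∀ i' j' l' : ℕ, (i' : ℤ) - j' = (i : ℤ) - j → 2 * (j' : ℤ) + l' = 2 * (j : ℤ) + l →
        (i', j', l') ∈ ({(i, j, l)} : Finset (ℕ × ℕ × ℕ))) →
      d = ((i : ℤ) - j, 2 * (j : ℤ) + l) → p ∈ I := by
    rintro i j l hq hL rfl
    have := expandT _ _ {(i, j, l)} hL p hp
    rw [Finset.sum_singleton, hq, map_zero] at this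
    rw [this]
    exact I.zero_mem
  obtain ⟨s, hs⟩ := hs
  fin_cases s <;> simp only [wtsT] at hs
  · refine single 0 0 0 c0 (fun i j l a b => ?_) (by rw [← hs]; rfl)
    simp only [Finset.mem_singleton, Prod.mk.injEq]; omega
  · refine single 0 1 0 c1 (fun i j l a b => ?_) (by rw [← hs]; rfl)
    simp only [Finset.mem_singleton, Prod.mk.injEq]; omega
  · refine single 1 0 0 c2 (fun i j l a b => ?_) (by rw [← hs]; rfl)
    simp only [Finset.mem_singleton, Prod.mk.injEq]; omega
  · refine single 0 0 1 c3 (fun i j l a b => ?_) (by rw [← hs]; rfl)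
    simp only [Finset.mem_singleton, Prod.mk.injEq]; omega
  · refine single 1 0 1 c4 (fun i j l a b => ?_) (by rw [← hs]; rfl)
    simp only [Finset.mem_singleton, Prod.mk.injEq]; omega
  · have hp' : p ∈ weightedHomogeneousSubmodule R degT (0, 2) := by rw [← hs] at hp; exact hp
    have := expandT 0 2 {(0, 0, 2), (1, 1, 0)} (fun i j l h1 h2 => by
      simp only [Finset.mem_insert, Finset.mem_singleton, Prod.mk.injEq]; omega) p hp'
    rw [Finset.sum_pair (by simp)] at this
    simp only [c5, c6, map_zero, add_zero] at this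
    rw [this]
    exact I.zero_mem
  · have hp' : p ∈ weightedHomogeneousSubmodule R degT (0, 2) := by rw [← hs] at hp; exact hp
    have := expandT 0 2 {(0, 0, 2), (1, 1, 0)} (fun i j l h1 h2 => by
      simp only [Finset.mem_insert, Finset.mem_singleton, Prod.mk.injEq]; omega) p hp'
    rw [Finset.sum_pair (by simp)] at this
    simp only [c5, c6, map_zero, add_zero] at this
    rw [this]
    exact I.zero_mem
  · refine single 0 2 0 c7 (fun i j l a b => ?_) (by rw [← hs]; rfl)
    simp only [Finset.mem_singleton, Prod.mk.injEq]; omega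
  · refine single 2 0 0 c8 (fun i j l a b => ?_) (by rw [← hs]; rfl)
    simp only [Finset.mem_singleton, Prod.mk.injEq]; omega
  · refine single 0 1 1 c9 (fun i j l a b => ?_) (by rw [← hs]; rfl)
    simp only [Finset.mem_singleton, Prod.mk.injEq]; omega
  · have hp' : p ∈ weightedHomogeneousSubmodule R degT (-1, 4) := by rw [← hs] at hp; exact hp
    rw [fib14 h p hp', c10, map_zero, add_zero]
    exact yz2_mem h _
  · refine single 0 3 0 c11 (fun i j l a b => ?_) (by rw [← hs]; rfl)
    simp only [Finset.mem_singleton, Prod.mk.injEq]; omega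
  · refine single 2 0 1 c12 (fun i j l a b => ?_) (by rw [← hs]; rfl)
    simp only [Finset.mem_singleton, Prod.mk.injEq]; omega
  · have hp' : p ∈ weightedHomogeneousSubmodule R degT (-2, 6) := by rw [← hs] at hp; exact hp
    rw [fib26 h p hp', c13, map_zero, add_zero]
    exact y2z2_mem h _
  · have hp' : p ∈ weightedHomogeneousSubmodule R degT (0, 3) := by rw [← hs] at hp; exact hp
    rw [fib03 p hp', (split _ _ c14).1, (split _ _ c14).2]
    exact I.add_mem (z3 _) (xyz _)
  · have hp' : p ∈ weightedHomogeneousSubmodule R degT (1, 2) := by rw [← hs] at hp; exact hp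
    rw [fib12 p hp', (split _ _ c15).1, (split _ _ c15).2]
    exact I.add_mem (xz2 _) (x2y _)
  · have hp' : p ∈ weightedHomogeneousSubmodule R degT (0, 4) := by rw [← hs] at hp; exact hp
    rw [fib04 p hp', (split _ _ c16).1, (split _ _ c16).2]
    have h3 := I.mul_mem_right (X 2) (z3 (q 0 0 4 p))
    have h4 := I.mul_mem_right (X 1) (x2y (q 2 2 0 p))
    rw [mul_X2] at h3
    rw [mul_X1] at h4
    exact I.add_mem h3 (I.add_mem (xyz2_mem h _) h4)
  · have hp' : p ∈ weightedHomogeneousSubmodule R degT (1, 3) := by rw [← hs] at hp; exact hp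
    rw [fib13 p hp', (split _ _ c17).1, (split _ _ c17).2]
    have h3 := I.mul_mem_right (X 0) (z3 (q 1 0 3 p))
    have h4 := I.mul_mem_right (X 0) (xyz (q 2 1 1 p))
    rw [mul_X0] at h3 h4
    exact I.add_mem h3 h4

theorem exists_idl : ∃ (e : R) (he : e * e = e), idl e he = I := by
  obtain ⟨e, he, h1, h2⟩ := exists_idem h
  refine ⟨e, he, le_antisymm (fun p hp => ?_) (fun p hp => ?_)⟩
  · rw [← sum_weightedHomogeneousComponent degT p]
    refine finsum_induction (p := fun p => p ∈ I) I.zero_mem (fun x y hx hy => I.add_mem hx hy)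
      (fun d => ?_)
    exact mem_of_mem_idl h he h1 h2 d _ (weightedHomogeneousComponent_isWeightedHomogeneous d p)
      (idl_hom e he p hp d)
  · rw [mem_idl]
    intro s
    have hle : ((idl e he).restrictScalars R).comap
        (weightedHomogeneousSubmodule R degT (wtsT s)).subtype ≤
        (I.restrictScalars R).comap (weightedHomogeneousSubmodule R degT (wtsT s)).subtype :=
      fun x hx => mem_of_mem_idl h he h1 h2 _ _ x.2 hx
    have heq := LocFree.eq_of_le ((idl_admissible e he).2 (wtsT s)) (h.2 (wtsT s)) hle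
    have hc : weightedHomogeneousComponent degT (wtsT s) p ∈ I := h.1 p hp _
    have hx : (⟨_, weightedHomogeneousComponent_isWeightedHomogeneous (wtsT s) p⟩ :
        weightedHomogeneousSubmodule R degT (wtsT s)) ∈
        (I.restrictScalars R).comap (weightedHomogeneousSubmodule R degT (wtsT s)).subtype := hc
    rw [← heq] at hx
    have hx2 : weightedHomogeneousComponent degT (wtsT s) p ∈ idl e he := hx
    rw [mem_idl] at hx2
    have := hx2 s
    rwa [G_component, if_pos rfl] at this

end

theorem exists_idl_iff (I : Ideal (MvPolynomial (Fin 3) R)) :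
    (∃ (e : R) (he : e * e = e), idl e he = I) ↔ IsAdmissible degT hilbT I := by
  constructor
  · rintro ⟨e, he, rfl⟩
    exact idl_admissible e he
  · exact fun h => exists_idl h

theorem idl_inj {e e' : R} (he : e * e = e) (he' : e' * e' = e')
    (h : idl e he = idl e' he') : e = e' := by
  have key : ∀ (a : R) (ha : a * a = a) (r : R), monomial (E 0 0 3) r ∈ idl a ha ↔
      (1 - a) * r = 0 := by
    intro a ha r
    rw [mem_idl, G_forall]
    simp [q_mono]
  have h1 : (1 - e') * e = 0 := by
    rw [← key e' he', ← h, key e he]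
    linear_combination -he
  have h2 : (1 - e) * e' = 0 := by
    rw [← key e he, h, key e' he']
    linear_combination -he'
  linear_combination h1 - h2

theorem idl_congr {e e' : R} (h : e = e') (he : e * e = e) (he' : e' * e' = e') :
    idl e he = idl e' he' := by
  subst h
  rfl

section

variable (k : Type) [Field k] [Algebra k R]

theorem idem_of_hom (u : (k × k) →ₐ[k] R) : u (1, 0) * u (1, 0) = u (1, 0) := by
  rw [← map_mul]
  simp

theorem exists_hom (e : R) (he : e * e = e) : ∃ u : (k × k) →ₐ[k] R, u (1, 0) = e := by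
  let f : (k × k) →ₗ[k] R :=
    (LinearMap.toSpanSingleton k R e).coprod (LinearMap.toSpanSingleton k R (1 - e))
  have hf : ∀ a b : k, f (a, b) = a • e + b • (1 - e) := fun a b => rfl
  refine ⟨AlgHom.ofLinearMap f ?_ ?_, ?_⟩
  · rw [Prod.one_eq_mk, hf]
    simp
  · rintro ⟨a, b⟩ ⟨a', b'⟩
    rw [Prod.mk_mul_mk, hf, hf, hf]
    simp only [Algebra.smul_def, map_mul]
    linear_combination (-(algebraMap k R a * algebraMap k R a') +
      algebraMap k R a * algebraMap k R b' + algebraMap k R b * algebraMap k R a'
      - algebraMap k R b * algebraMap k R b') * he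
  · change f (1, 0) = e
    rw [hf]
    simp

theorem isRepresentedBy : IsRepresentedBy degT hilbT k (k × k) := by
  refine ⟨fun R _ _ u => idl (u (1, 0)) (idem_of_hom k u), ?_, ?_⟩
  · intro R _ _
    refine ⟨?_, ?_⟩
    · intro u v huv
      have h1 : u (1, 0) = v (1, 0) := idl_inj _ _ huv
      have h2 : ∀ w : (k × k) →ₐ[k] R, w (0, 1) = 1 - w (1, 0) := by
        intro w
        rw [eq_sub_iff_add_eq, ← map_add]
        have : ((0, 1) + (1, 0) : k × k) = 1 := by simp [Prod.one_eq_mk]
        rw [this, map_one]
      refine AlgHom.ext fun x => ?_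
      obtain ⟨a, b⟩ := x
      have h3 : ((a, b) : k × k) = a • (1, 0) + b • (0, 1) := by simp
      rw [h3, map_add, map_add, map_smul, map_smul, map_smul, map_smul, h2, h2, h1]
    · intro I
      rw [← exists_idl_iff]
      constructor
      · rintro ⟨u, rfl⟩
        exact ⟨_, _, rfl⟩
      · rintro ⟨e, he, rfl⟩
        obtain ⟨u, hu⟩ := exists_hom k e he
        exact ⟨u, idl_congr hu _ _⟩
  · intro R R' _ _ _ _ φ u
    exact idl_map (φ : R →+* R') (u (1, 0)) (idem_of_hom k u) (idem_of_hom k (φ.comp u))

end

theorem not_connected (k : Type) [Field k] : ¬ PreconnectedSpace (PrimeSpectrum (k × k)) := by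
  intro hc
  have h1 : IsClopen (PrimeSpectrum.basicOpen ((1, 0) : k × k) : Set (PrimeSpectrum (k × k))) :=
    PrimeSpectrum.isClopen_basicOpen_of_mul_add _ (0, 1) (by simp) (by simp [Prod.one_eq_mk])
  rcases isClopen_iff.1 h1 with h2 | h2
  · have h3 : PrimeSpectrum.basicOpen ((1, 0) : k × k) = PrimeSpectrum.basicOpen 0 := by
      rw [PrimeSpectrum.basicOpen_zero]
      exact TopologicalSpace.Opens.ext h2
    have h4 := PrimeSpectrum.basicOpen_injOn_isIdempotentElem
      (show IsIdempotentElem ((1, 0) : k × k) by simp [IsIdempotentElem])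
      (show IsIdempotentElem (0 : k × k) by simp [IsIdempotentElem]) h3
    simp at h4
  · have h3 : PrimeSpectrum.basicOpen ((1, 0) : k × k) = PrimeSpectrum.basicOpen 1 := by
      rw [PrimeSpectrum.basicOpen_one]
      exact TopologicalSpace.Opens.ext h2
    have h4 := PrimeSpectrum.basicOpen_injOn_isIdempotentElem
      (show IsIdempotentElem ((1, 0) : k × k) by simp [IsIdempotentElem])
      (show IsIdempotentElem (1 : k × k) by simp [IsIdempotentElem]) h3
    simp [Prod.one_eq_mk] at h4

end Pool.Agent.H9.TwoPoint
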